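import Pool.Agent.Work.MP_11a3f4_lc.Interp4
import Pool.Agent.Work.MP_11a3f4_lc.H90Core

/-! Every structure interpretable with parameters in a model of the theory of a Henson graph has a
4-G-compact theory. -/

namespace Pool.Agent.Results.MP_11a3f4_lc.Hereditary

open FirstOrder FirstOrder.Language Pool.Agent.Work.MP_11a3f4_lc

universe u v w w₁ w₂ w₃

theorem result (n : ℕ) (hn : 3 ≤ n)
    (H : Type w₁) [Language.graph.Structure H] [Countable H]
    (hH : IsFraisseLimit (hensonClass.{w₁} n) H)
    (M : Type w₂) [Language.graph.Structure M] (hM : M ⊨ Language.graph.completeTheory H)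
    (L : FirstOrder.Language.{u, v}) (N : Type w₃) [L.Structure N]
    (hN : Interpretable L Language.graph N M) :
    NGCompact.{u, v, w} (L.completeTheory N) 4 := by
  obtain ⟨m, rfl⟩ : ∃ m, n = m + 1 := ⟨n - 1, by omega⟩
  have h1 : H ≅[Language.graph] M := elementarilyEquivalent_iff.2 fun φ =>
    (realize_iff_of_model_completeTheory H M φ).symm
  have hE : Hen (Adj M) m := (hen_of_limit hH).transfer h1
  refine interp_compact hE (by norm_num) ?_ hN
  intro A hA σ _ X hX Eqv e1 e2 e3 e4 e5 x y h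
  obtain ⟨x₁, x₂, x₃, k1, k2, k3, k4⟩ := core90 hE hA X hX Eqv e1 e2 e3 e4 e5 h
  refine ⟨![x, x₁, x₂, x₃, y], rfl, rfl, fun i => ?_⟩
  fin_cases i
  exacts [k1, k2, k3, k4]

end Pool.Agent.Results.MP_11a3f4_lc.Hereditary
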