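import Pool.Agent.Work.MP_11a3f4_lc.Main

/-! Every reduct of a model of the theory of a Henson graph with parameters named has a
2-G-compact theory. -/

namespace Pool.Agent.Results.MP_11a3f4_lc.WeakHereditary

open FirstOrder FirstOrder.Language Pool.Agent.Work.MP_11a3f4_lc

universe u v w w₁ w₂

theorem result (n : ℕ) (hn : 3 ≤ n)
    (H : Type w₁) [Language.graph.Structure H] [Countable H]
    (hH : IsFraisseLimit (hensonClass.{w₁} n) H)
    (M : Type w₂) [Language.graph.Structure M] (hM : M ⊨ Language.graph.completeTheory H)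
    (A : Set M) (L : FirstOrder.Language.{u, v}) [L.IsRelational] [L.Structure M]
    (hL : ∀ (k : ℕ) (r : L.Relations k),
      A.Definable Language.graph {x : Fin k → M | Structure.RelMap r x}) :
    NGCompact.{u, v, w} (L.completeTheory M) 2 := by
  obtain ⟨m, rfl⟩ : ∃ m, n = m + 1 := ⟨n - 1, by omega⟩
  have h1 : H ≅[Language.graph] M := elementarilyEquivalent_iff.2 fun φ =>
    (realize_iff_of_model_completeTheory H M φ).symm
  have hE : Hen (Adj M) m := (hen_of_limit hH).transfer h1
  intro C _ κ hC h0 hκ hsat ι hι a b hab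
  obtain ⟨k, hk⟩ := hab
  have h2 : M ≅[L] C := elementarilyEquivalent_iff.2 fun φ =>
    (realize_iff_of_model_completeTheory M C φ).symm
  have : Nonempty M := by
    obtain ⟨x, -⟩ := hE.ext ∅ ∅ Set.finite_empty Set.finite_empty (by simp) (by
      rintro ⟨f, hf, -⟩
      exact hf ⟨0, by omega⟩)
    exact ⟨x⟩
  have : Nonempty C := h2.nonempty
  exact lascar_two (A := A) hE h2
    (fun φ => inv_formula hE A (fun k r => inv_definable hE (hL k r)) φ) h0 hκ hsat hι hk

end Pool.Agent.Results.MP_11a3f4_lc.WeakHereditary
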